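import Mathlib

/-! Brouwer's fixed point theorem for continuous maps of `Fin n → ℝ` with bounded range.
The combinatorial part is a Sperner lemma on the lattice `ℤ^(n+1)` modulo the diagonal: the sum
modulo 2 of the determinants of the label matrices of all simplices does not change when the label
of one point is changed. -/

open Finset

namespace MP8fca14.Brw

section Abstract

variable {S P : Type*} {n : ℕ}

/-- determinant mod 2 of the matrix whose rows are the vectors of the vertices -/
noncomputable def dt (u : P → Fin (n+1) → ZMod 2) (v : S → Fin (n+1) → P) (s : S) : ZMod 2 :=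
  Matrix.det (Matrix.of fun c j => u (v s c) j)

/-- if the sum of the entries of one row is `0` and of each other row is `1` then the determinant
is a sum of minors -/
lemma det_row_zero (M : Matrix (Fin (n+1)) (Fin (n+1)) (ZMod 2)) (c0 : Fin (n+1))
    (h0 : ∑ j, M c0 j = 0) (h1 : ∀ c, c ≠ c0 → ∑ j, M c j = 1) :
    M.det = ∑ i ∈ univ.erase c0, (M.submatrix i.succAbove (Fin.succAbove 0)).det := by
  have h2 := Matrix.det_updateCol_sum M 0 (fun _ => (1 : ZMod 2))
  rw [one_smul] at h2
  rw [← h2, Matrix.det_succ_column _ 0, ← Finset.sum_erase_add _ _ (Finset.mem_univ c0)]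
  have hc0 : (-1 : ZMod 2) ^ ((c0 : ℕ) + ((0 : Fin (n+1)) : ℕ)) *
      (M.updateCol 0 fun k => ∑ x, (1 : ZMod 2) • M k x) c0 0 *
      ((M.updateCol 0 fun k => ∑ x, (1 : ZMod 2) • M k x).submatrix c0.succAbove
        (Fin.succAbove 0)).det = 0 := by
    have : (M.updateCol 0 fun k => ∑ x, (1 : ZMod 2) • M k x) c0 0 = 0 := by
      simp [h0]
    rw [this]; simp
  rw [hc0, add_zero]
  apply Finset.sum_congr rfl
  intro i hi
  have hi' : i ≠ c0 := by simpa using hi
  have hneg : (-1 : ZMod 2) = 1 := by decide
  have e1 : (M.updateCol 0 fun k => ∑ x, (1 : ZMod 2) • M k x) i 0 = 1 := by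
    simp [h1 i hi']
  rw [hneg, one_pow, e1, one_mul, one_mul]
  congr 1

lemma change_one [DecidableEq S] [DecidableEq P]
    (v : S → Fin (n+1) → P) (nb : Fin (n+1) → S → S)
    (hinv : ∀ c s, nb c (nb c s) = s) (hne : ∀ c s, nb c s ≠ s)
    (hv : ∀ c s d, d ≠ c → v (nb c s) d = v s d)
    (hcol : ∀ s s' c c', v s c = v s' c' → c = c')
    (u u' : P → Fin (n+1) → ZMod 2) (hu : ∀ p, ∑ j, u p j = 1) (hu' : ∀ p, ∑ j, u' p j = 1)
    (p0 : P) (huu : ∀ p, p ≠ p0 → u p = u' p) (T : Finset S)
    (hT : ∀ s c, v s c = p0 → s ∈ T) :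
    ∑ s ∈ T, dt u v s = ∑ s ∈ T, dt u' v s := by
  by_cases hex : ∃ s0 c0, v s0 c0 = p0
  swap
  · apply Finset.sum_congr rfl
    intro s _
    unfold dt
    congr 1
    ext c j
    have : v s c ≠ p0 := fun h => hex ⟨s, c, h⟩
    simp [huu _ this]
  obtain ⟨s0, c0, hs0⟩ := hex
  rw [← sub_eq_zero, ← Finset.sum_sub_distrib]
  -- restrict to the star
  have hstar : ∑ s ∈ T, (dt u v s - dt u' v s) =
      ∑ s ∈ T.filter (fun s => v s c0 = p0), (dt u v s - dt u' v s) := by
    symm
    apply Finset.sum_filter_of_ne
    intro s _ hs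
    by_contra hc
    apply hs
    have : dt u v s = dt u' v s := by
      unfold dt
      congr 1
      ext c j
      have : v s c ≠ p0 := by
        intro h
        have := hcol s s0 c c0 (h.trans hs0.symm)
        subst this
        exact hc h
      simp [huu _ this]
    rw [this, sub_self]
  rw [hstar]
  set St := T.filter (fun s => v s c0 = p0) with hSt
  -- matrix with the difference in row c0
  let M : S → Matrix (Fin (n+1)) (Fin (n+1)) (ZMod 2) := fun s =>
    (Matrix.of fun c j => u (v s c) j).updateRow c0 (fun j => u p0 j - u' p0 j)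
  have hM : ∀ s ∈ St, dt u v s - dt u' v s = (M s).det := by
    intro s hs
    have hsc : v s c0 = p0 := (Finset.mem_filter.1 hs).2
    have e1 : (Matrix.of fun c j => u (v s c) j) =
        (Matrix.of fun c j => u (v s c) j).updateRow c0 (fun j => u p0 j) := by
      ext c j
      by_cases h : c = c0
      · subst h; simp [hsc]
      · simp [Matrix.updateRow_ne h]
    have e2 : (Matrix.of fun c j => u' (v s c) j) =
        (Matrix.of fun c j => u (v s c) j).updateRow c0 (fun j => u' p0 j) := by
      ext c j
      by_cases h : c = c0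
      · subst h; simp [hsc]
      · have : v s c ≠ p0 := by
          intro h'
          exact h (hcol s s c c0 (h'.trans hsc.symm))
        simp [Matrix.updateRow_ne h, huu _ this]
    have e3 : (Matrix.of fun c j => u (v s c) j).updateRow c0 (fun j => u p0 j) =
        (Matrix.of fun c j => u (v s c) j).updateRow c0
          ((fun j => u p0 j - u' p0 j) + (fun j => u' p0 j)) := by
      congr 1
      ext j; simp
    unfold dt
    rw [e1, e2, e3, Matrix.det_updateRow_add]
    simp [M]
  rw [Finset.sum_congr rfl hM]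
  have hM2 : ∀ s ∈ St, (M s).det =
      ∑ i ∈ univ.erase c0, ((M s).submatrix i.succAbove (Fin.succAbove 0)).det := by
    intro s hs
    apply det_row_zero
    · simp [M, hu, hu']
    · intro c hc
      simp [M, Matrix.updateRow_ne hc, hu]
  rw [Finset.sum_congr rfl hM2, Finset.sum_comm]
  apply Finset.sum_eq_zero
  intro i hi
  have hi' : i ≠ c0 := by simpa using hi
  have hkey : ∀ s, (M (nb i s)).submatrix i.succAbove (Fin.succAbove 0) =
      (M s).submatrix i.succAbove (Fin.succAbove 0) := by
    intro s
    ext a b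
    have hai : i.succAbove a ≠ i := Fin.succAbove_ne i a
    simp only [M, Matrix.submatrix_apply, Matrix.updateRow_apply]
    split_ifs
    · rfl
    · simp [hv i s _ hai]
  apply Finset.sum_involution (fun s _ => nb i s)
  · intro s _
    rw [hkey s]
    exact CharTwo.add_self_eq_zero _
  · intro s _ _
    exact hne i s
  · intro s hs
    have hsc : v s c0 = p0 := (Finset.mem_filter.1 hs).2
    have h3 : v (nb i s) c0 = p0 := by rw [hv i s c0 (Ne.symm hi')]; exact hsc
    exact Finset.mem_filter.2 ⟨hT _ _ h3, h3⟩
  · intro s _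
    exact hinv i s

lemma change_many [DecidableEq S] [DecidableEq P]
    (v : S → Fin (n+1) → P) (nb : Fin (n+1) → S → S)
    (hinv : ∀ c s, nb c (nb c s) = s) (hne : ∀ c s, nb c s ≠ s)
    (hv : ∀ c s d, d ≠ c → v (nb c s) d = v s d)
    (hcol : ∀ s s' c c', v s c = v s' c' → c = c') (A : Finset P) :
    ∀ (u u' : P → Fin (n+1) → ZMod 2) (_ : ∀ p, ∑ j, u p j = 1) (_ : ∀ p, ∑ j, u' p j = 1)
    (_ : ∀ p, p ∉ A → u p = u' p) (T : Finset S)
    (_ : ∀ s c, v s c ∈ A → s ∈ T),
    ∑ s ∈ T, dt u v s = ∑ s ∈ T, dt u' v s := by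
  induction A using Finset.induction_on with
  | empty =>
    intro u u' _ _ h T _
    have : u = u' := funext fun p => h p (by simp)
    rw [this]
  | insert p0 A hp0 ih =>
    intro u u' hu hu' h T hT
    have h1 : ∑ s ∈ T, dt u v s = ∑ s ∈ T, dt (Function.update u p0 (u' p0)) v s := by
      apply change_one v nb hinv hne hv hcol u _ hu _ p0 _ T
      · intro s c hs
        exact hT s c (by simp [hs])
      · intro p
        by_cases hp : p = p0
        · subst hp; simp [hu']
        · simp [Function.update_of_ne hp, hu]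
      · intro p hp
        simp [Function.update_of_ne hp]
    rw [h1]
    apply ih
    · intro p
      by_cases hp : p = p0
      · subst hp; simp [hu']
      · simp [Function.update_of_ne hp, hu]
    · exact hu'
    · intro p hp
      by_cases hp' : p = p0
      · subst hp'; simp
      · rw [Function.update_of_ne hp']
        exact h p (by simp [hp, hp'])
    · intro s c hs
      exact hT s c (by simp [hs])

end Abstract

section Concrete

variable {n : ℕ}

/-- simplices: a base point of sum `0` and the order of the steps -/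
@[ext] structure Sx (n : ℕ) where
  b : Fin (n+1) → ℤ
  r : Equiv.Perm (Fin (n+1))
  hb : ∑ j, b j = 0

/-- the vertex of colour `c` -/
def vtx (s : Sx n) (c : Fin (n+1)) : Fin (n+1) → ℤ :=
  fun j => s.b j + if s.r j < c then 1 else 0

lemma sum_vtx (s : Sx n) (c : Fin (n+1)) : ∑ j, vtx s c j = ((c : ℕ) : ℤ) := by
  unfold vtx
  rw [Finset.sum_add_distrib, s.hb, zero_add,
    Equiv.sum_comp s.r (fun t => if t < c then (1 : ℤ) else 0)]
  have h1 : ∑ t : Fin (n+1), (if t < c then (1 : ℤ) else 0) =
      ((Finset.univ.filter (fun t => t < c)).card : ℤ) := by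
    rw [Finset.sum_boole]
  rw [h1]
  have h2 : Finset.univ.filter (fun t : Fin (n+1) => t < c) = Finset.Iio c := by
    ext t; simp
  rw [h2, Fin.card_Iio]

lemma vtx_col (s s' : Sx n) (c c' : Fin (n+1)) (h : vtx s c = vtx s' c') : c = c' := by
  have h1 := sum_vtx s c
  rw [h, sum_vtx] at h1
  ext
  exact_mod_cast h1.symm

def prv (c : Fin (n+1)) : Fin (n+1) := if c = 0 then Fin.last n else ⟨(c : ℕ) - 1, by omega⟩

lemma prv_ne (hn : 0 < n) (c : Fin (n+1)) : prv c ≠ c := by
  unfold prv
  split_ifs with h
  · subst h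
    intro h2
    have := congrArg Fin.val h2
    simp at this
    omega
  · intro h2
    have := congrArg Fin.val h2
    have h3 : (c : ℕ) ≠ 0 := fun h4 => h (Fin.ext h4)
    simp at this
    omega

/-- the neighbour across the facet opposite the vertex of colour `c` -/
def nbr (c : Fin (n+1)) (s : Sx n) : Sx n where
  b := fun j => s.b j + if c = 0 then
    ((if s.r j = 0 then 1 else 0) - (if s.r j = Fin.last n then 1 else 0)) else 0
  r := s.r.trans (Equiv.swap (prv c) c)
  hb := by
    rw [Finset.sum_add_distrib, s.hb, zero_add]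
    split_ifs
    · rw [Finset.sum_sub_distrib, Equiv.sum_comp s.r (fun t => if t = 0 then (1 : ℤ) else 0),
        Equiv.sum_comp s.r (fun t => if t = Fin.last n then (1 : ℤ) else 0)]
      simp
    · simp

lemma nbr_inv (c : Fin (n+1)) (s : Sx n) : nbr c (nbr c s) = s := by
  ext j
  · simp only [nbr]
    by_cases hc : c = 0
    · subst hc
      simp only [if_true, prv, Equiv.trans_apply]
      by_cases h1 : s.r j = 0
      · rw [h1]
        simp only [Equiv.swap_apply_right]
        by_cases h2 : (0 : Fin (n+1)) = Fin.last n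
        · simp [← h2]
        · have h3 : ¬ Fin.last n = 0 := fun h => h2 h.symm
          simp [h2, h3]
      · by_cases h2 : s.r j = Fin.last n
        · rw [h2]
          have h3 : ¬ Fin.last n = 0 := by rw [← h2]; exact h1
          have h4 : ¬ (0 : Fin (n+1)) = Fin.last n := fun h => h3 h.symm
          simp [Equiv.swap_apply_left, h3, h4]
        · rw [Equiv.swap_apply_of_ne_of_ne h2 h1]
          simp [h1, h2]
    · simp [hc]
  · simp [nbr]

lemma nbr_ne (hn : 0 < n) (c : Fin (n+1)) (s : Sx n) : nbr c s ≠ s := by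
  intro h
  have h1 : (nbr c s).r = s.r := by rw [h]
  have h2 : (nbr c s).r (s.r.symm c) = c := by rw [h1]; simp
  simp only [nbr, Equiv.trans_apply, Equiv.apply_symm_apply, Equiv.swap_apply_right] at h2
  exact prv_ne hn c h2

lemma nbr_vtx (c : Fin (n+1)) (s : Sx n) (d : Fin (n+1)) (hd : d ≠ c) :
    vtx (nbr c s) d = vtx s d := by
  ext j
  simp only [vtx, nbr, Equiv.trans_apply]
  by_cases hc : c = 0
  · subst hc
    have hdpos : (0 : Fin (n+1)) < d := Fin.pos_iff_ne_zero.2 hd
    simp only [if_true, prv]
    by_cases h1 : s.r j = 0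
    · rw [h1, Equiv.swap_apply_right]
      by_cases h2 : (0 : Fin (n+1)) = Fin.last n
      · exfalso
        have := Fin.le_last d
        rw [← h2] at this
        exact absurd hdpos (not_lt.2 this)
      · have h5 : ¬ Fin.last n < d := not_lt.2 (Fin.le_last d)
        simp [h2, h5, hdpos]
    · by_cases h2 : s.r j = Fin.last n
      · rw [h2, Equiv.swap_apply_left]
        have h3 : ¬ Fin.last n = 0 := by rw [← h2]; exact h1
        have h5 : ¬ Fin.last n < d := not_lt.2 (Fin.le_last d)
        simp [h3, h5, hdpos]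
      · rw [Equiv.swap_apply_of_ne_of_ne h2 h1]
        simp [h1, h2]
  · have hc' : (c : ℕ) ≠ 0 := fun h => hc (Fin.ext h)
    have hd' : (d : ℕ) ≠ c := fun h => hd (Fin.ext h)
    simp only [if_neg hc, add_zero]
    congr 1
    have key : (Equiv.swap (prv c) c (s.r j) < d) ↔ s.r j < d := by
      by_cases h1 : s.r j = c
      · rw [h1, Equiv.swap_apply_right]
        simp only [prv, if_neg hc, Fin.lt_def]
        omega
      · by_cases h2 : s.r j = prv c
        · rw [h2, Equiv.swap_apply_left]
          simp only [prv, if_neg hc, Fin.lt_def]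
          omega
        · rw [Equiv.swap_apply_of_ne_of_ne h2 h1]
    simp only [key]

/-- simplices with a vertex in a finite set -/
lemma finite_star (A : Set (Fin (n+1) → ℤ)) (hA : A.Finite) :
    {s : Sx n | ∃ c, vtx s c ∈ A}.Finite := by
  have h1 : (Set.range (fun t : A × Fin (n+1) × Equiv.Perm (Fin (n+1)) =>
      ((fun j => t.1.1 j - if t.2.2 j < t.2.1 then 1 else 0 : Fin (n+1) → ℤ), t.2.2))).Finite := by
    have : Finite A := hA
    exact Set.finite_range _
  apply Set.Finite.of_finite_image (f := fun s : Sx n => (s.b, s.r))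
  · apply h1.subset
    rintro _ ⟨s, ⟨c, hc⟩, rfl⟩
    refine ⟨(⟨vtx s c, hc⟩, c, s.r), ?_⟩
    simp only [vtx]
    ext j
    · simp
    · simp
  · intro s _ s' _ h
    simp only [Prod.mk.injEq] at h
    exact Sx.ext h.1 h.2

/-- least index of a smallest entry -/
noncomputable def amin {α : Type*} [LinearOrder α] (x : Fin (n+1) → α) : Fin (n+1) :=
  (Finset.univ.filter (fun j => ∀ k, x j ≤ x k)).min' (by
    obtain ⟨j, _, hj⟩ := Finset.exists_min_image (Finset.univ : Finset (Fin (n+1))) x
      ⟨0, Finset.mem_univ 0⟩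
    exact ⟨j, by simpa using hj⟩)

lemma amin_le {α : Type*} [LinearOrder α] (x : Fin (n+1) → α) (k : Fin (n+1)) :
    x (amin x) ≤ x k := by
  have h := Finset.min'_mem (Finset.univ.filter (fun j => ∀ k, x j ≤ x k)) (by
    obtain ⟨j, _, hj⟩ := Finset.exists_min_image (Finset.univ : Finset (Fin (n+1))) x
      ⟨0, Finset.mem_univ 0⟩
    exact ⟨j, by simpa using hj⟩)
  exact (Finset.mem_filter.1 h).2 k

lemma amin_lt {α : Type*} [LinearOrder α] (x : Fin (n+1) → α) (k : Fin (n+1)) (hk : k < amin x) :
    x (amin x) < x k := by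
  by_contra hcon
  have hcon' : x k ≤ x (amin x) := not_lt.1 hcon
  have hmem : k ∈ Finset.univ.filter (fun j => ∀ k, x j ≤ x k) := by
    simp only [Finset.mem_filter, Finset.mem_univ, true_and]
    intro k'
    exact hcon'.trans (amin_le x k')
  have := Finset.min'_le _ k hmem
  exact absurd hk (not_lt.2 this)

lemma amin_unique {α : Type*} [LinearOrder α] (x : Fin (n+1) → α) (i : Fin (n+1))
    (h1 : ∀ k, x i ≤ x k) (h2 : ∀ k, k < i → x i < x k) : amin x = i := by
  rcases lt_trichotomy (amin x) i with h | h | h
  · exact absurd (h2 _ h) (not_lt.2 (amin_le x i))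
  · exact h
  · exact absurd (amin_lt x i h) (not_lt.2 (h1 _))

def s0 (n : ℕ) : Sx n := ⟨fun _ => 0, Equiv.refl _, by simp⟩

lemma amin_s0 (c : Fin (n+1)) : amin (vtx (s0 n) c) = c := by
  apply amin_unique
  · intro k
    simp only [vtx, s0, Equiv.refl_apply, lt_irrefl, if_false]
    split_ifs <;> omega
  · intro k hk
    simp [vtx, s0, hk]

/-- the only simplex which is full for the base labelling -/
lemma full_base (s : Sx n) (hs : Function.Injective fun c => amin (vtx s c)) : s = s0 n := by
  -- step 1: the coordinate increased in step c is the label of the vertex c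
  have h1 : ∀ c : Fin (n+1), (c : ℕ) < n → s.r (amin (vtx s c)) = c := by
    intro c hc
    by_contra hne
    let c' : Fin (n+1) := ⟨c + 1, by omega⟩
    have hcc' : amin (vtx s c') = amin (vtx s c) := by
      have hval : ∀ j, s.r j ≠ c → vtx s c' j = vtx s c j := by
        intro j hj
        simp only [vtx, c', Fin.lt_def]
        have : (s.r j : ℕ) ≠ c := fun h => hj (Fin.ext h)
        have h3 : ((s.r j : ℕ) < c + 1) ↔ ((s.r j : ℕ) < c) := by omega
        simp only [h3]
      have hge : ∀ j, vtx s c j ≤ vtx s c' j := by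
        intro j
        simp only [vtx, c', Fin.lt_def]
        split_ifs <;> omega
      apply amin_unique
      · intro k
        rw [hval _ hne]
        exact (amin_le _ k).trans (hge k)
      · intro k hk
        rw [hval _ hne]
        exact (amin_lt _ k hk).trans_le (hge k)
    have := hs hcc'
    have h4 := congrArg Fin.val this
    simp [c'] at h4
  have h2 : ∀ c : Fin (n+1), s.r (amin (vtx s c)) = c := by
    intro c
    by_cases hc : (c : ℕ) < n
    · exact h1 c hc
    · by_contra hne
      have h3 : ((s.r (amin (vtx s c)) : Fin (n+1)) : ℕ) < n := by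
        have h5 := (s.r (amin (vtx s c))).isLt
        have h6 := c.isLt
        have h7 : ((s.r (amin (vtx s c)) : Fin (n+1)) : ℕ) ≠ c := fun h => hne (Fin.ext h)
        omega
      have h4 := h1 _ h3
      have h5 := s.r.injective h4
      exact hne (hs h5)
  -- inverse of r
  have h3 : ∀ c, amin (vtx s c) = s.r.symm c := fun c => by
    rw [Equiv.eq_symm_apply]; exact h2 c
  set p := s.r.symm with hp
  have hrp : ∀ c, s.r (p c) = c := fun c => by simp [hp]
  -- comparisons
  have hlow : ∀ j, s.b (p 0) ≤ s.b j := by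
    intro j
    have := amin_le (vtx s 0) j
    rw [h3] at this
    simpa [vtx] using this
  have hup : ∀ c c' : Fin (n+1), c < c' → s.b (p c') ≤ s.b (p c) + 1 := by
    intro c c' hcc
    have := amin_le (vtx s c') (p c)
    rw [h3] at this
    simp only [vtx, hrp, lt_irrefl, if_false, hcc, if_true] at this
    omega
  have hup2 : ∀ j, s.b j ≤ s.b (p 0) + 1 := by
    intro j
    obtain ⟨c, rfl⟩ : ∃ c, p c = j := ⟨s.r j, by simp [hp]⟩
    by_cases hc : c = 0
    · subst hc; omega
    · exact hup 0 c (Fin.pos_iff_ne_zero.2 hc)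
  have hsum := s.hb
  have hb0 : s.b (p 0) = 0 := by
    rcases lt_trichotomy (s.b (p 0)) 0 with h | h | h
    · exfalso
      have : ∑ j, s.b j < ∑ j : Fin (n+1), (0 : ℤ) := by
        apply Finset.sum_lt_sum
        · intro j _
          have := hup2 j
          omega
        · exact ⟨p 0, Finset.mem_univ _, h⟩
      rw [hsum] at this
      simp at this
    · exact h
    · exfalso
      have : ∑ j : Fin (n+1), (0 : ℤ) < ∑ j, s.b j := by
        apply Finset.sum_lt_sum
        · intro j _
          have := hlow j
          omega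
        · exact ⟨p 0, Finset.mem_univ _, h⟩
      rw [hsum] at this
      simp at this
  have hb : ∀ j, s.b j = 0 := by
    have hnn : ∀ j ∈ (Finset.univ : Finset (Fin (n+1))), 0 ≤ s.b j := by
      intro j _
      have := hlow j
      omega
    intro j
    exact (Finset.sum_eq_zero_iff_of_nonneg hnn).1 hsum j (Finset.mem_univ j)
  have hmono : StrictMono p := by
    intro c c' hcc
    by_contra hle
    have hlt : p c' < p c := by
      rcases lt_trichotomy (p c') (p c) with h | h | h
      · exact h
      · exact absurd (p.injective h) (ne_of_gt hcc)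
      · exact absurd h hle
    have := amin_lt (vtx s c) (p c') (by rw [h3]; exact hlt)
    rw [h3] at this
    simp only [vtx, hrp, lt_irrefl, if_false, hb, hcc.le.not_gt] at this
  have hpid : p = Equiv.refl _ := by
    have e1 : (p : Fin (n+1) → Fin (n+1)) = id :=
      (StrictMono.range_inj hmono strictMono_id).1 (by rw [p.surjective.range_eq, Set.range_id])
    apply Equiv.ext
    intro c
    exact congrFun e1 c
  apply Sx.ext
  · funext j; exact hb j
  · have : s.r.symm = Equiv.refl _ := hpid
    have h5 := congrArg Equiv.symm this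
    simpa [s0] using h5

end Concrete

/-- Sperner's lemma on the lattice: a labelling which agrees with the base labelling outside a
finite set has a full simplex -/
theorem exists_full {n : ℕ} (l : (Fin (n+1) → ℤ) → Fin (n+1)) (A : Set (Fin (n+1) → ℤ))
    (hA : A.Finite) (hl : ∀ x, x ∉ A → l x = amin x) :
    ∃ s : Sx n, Function.Bijective fun c => l (vtx s c) := by
  classical
  suffices h : ∃ s : Sx n, Function.Injective fun c => l (vtx s c) by
    obtain ⟨s, hs⟩ := h
    exact ⟨s, hs, Finite.surjective_of_injective hs⟩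
  rcases Nat.eq_zero_or_pos n with hn | hn
  · subst hn
    exact ⟨s0 0, fun a b _ => Fin.ext (by omega)⟩
  by_contra hcon
  push Not at hcon
  let u : (Fin (n+1) → ℤ) → Fin (n+1) → ZMod 2 := fun x j => if l x = j then 1 else 0
  let u' : (Fin (n+1) → ℤ) → Fin (n+1) → ZMod 2 := fun x j => if amin x = j then 1 else 0
  have hfin := finite_star (n := n) A hA
  let T : Finset (Sx n) := insert (s0 n) hfin.toFinset
  have hsum := change_many (S := Sx n) vtx nbr nbr_inv (nbr_ne hn) nbr_vtx
    vtx_col hA.toFinset u u' (by intro p; simp [u]) (by intro p; simp [u'])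
    (by
      intro p hp
      have : p ∉ A := by simpa using hp
      simp only [u, u', hl p this]) T
    (by
      intro s c hs
      have h2 : vtx s c ∈ A := by simpa using hs
      simp only [T, Finset.mem_insert, Set.Finite.mem_toFinset, Set.mem_ofPred_eq]
      exact Or.inr ⟨c, h2⟩)
  have hl0 : ∀ (w : (Fin (n+1) → ℤ) → Fin (n+1)) (s : Sx n),
      (¬ Function.Injective fun c => w (vtx s c)) →
      dt (fun x j => if w x = j then (1 : ZMod 2) else 0) vtx s = 0 := by
    intro w s hs
    simp only [Function.Injective] at hs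
    push Not at hs
    obtain ⟨a, b, hab, hne⟩ := hs
    unfold dt
    apply Matrix.det_zero_of_row_eq hne
    ext j
    simp [hab]
  have hz : ∑ s ∈ T, dt u vtx s = 0 := by
    apply Finset.sum_eq_zero
    intro s _
    exact hl0 l s (hcon s)
  have hone : ∑ s ∈ T, dt u' vtx s = 1 := by
    rw [Finset.sum_eq_single (s0 n)]
    · unfold dt
      have : (Matrix.of fun c j => u' (vtx (s0 n) c) j) = (1 : Matrix _ _ (ZMod 2)) := by
        ext c j
        simp [u', amin_s0, Matrix.one_apply]
      rw [this, Matrix.det_one]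
    · intro s _ hs
      apply hl0 amin s
      intro hinj
      exact hs (full_base s hinj)
    · intro h
      exact absurd (Finset.mem_insert_self _ _) h
  rw [hz, hone] at hsum
  exact zero_ne_one hsum

/-- **Brouwer's fixed point theorem** for continuous maps of `ℝ^n` with bounded range -/
theorem brouwer {n : ℕ} (F : (Fin n → ℝ) → (Fin n → ℝ)) (hF : Continuous F) (R : ℝ)
    (hR : ∀ x, ‖F x‖ ≤ R) : ∃ x, F x = x := by
  classical
  have hR0 : 0 ≤ R := (norm_nonneg _).trans (hR 0)
  set B : ℝ := 2 * R + 2 with hB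
  set K : Set (Fin n → ℝ) := Metric.closedBall 0 B with hK
  have hKc : IsCompact K := isCompact_closedBall 0 B
  have hKne : K.Nonempty := ⟨0, by simp [hK, hB]; linarith⟩
  -- approximate fixed points
  have approx : ∀ ε > 0, ∃ y ∈ K, ‖F y - y‖ ≤ 2 * ε := by
    intro ε hε
    have huc := hKc.uniformContinuousOn_of_continuous hF.continuousOn
    rw [Metric.uniformContinuousOn_iff] at huc
    obtain ⟨δ, hδ, huc⟩ := huc ε hε
    obtain ⟨N, hN⟩ := exists_nat_gt (1 / min 1 (min δ ε))
    have hmin : 0 < min 1 (min δ ε) := lt_min one_pos (lt_min hδ hε)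
    have hNpos : (0 : ℝ) < N := lt_of_le_of_lt (by positivity) hN
    have hN1 : (1 : ℝ) / N < min 1 (min δ ε) := by
      rw [div_lt_iff₀ hNpos]
      rw [div_lt_iff₀ hmin] at hN
      linarith
    have hN2 : (1 : ℝ) / N < δ := hN1.trans_le ((min_le_right _ _).trans (min_le_left _ _))
    have hN3 : (1 : ℝ) / N < ε := hN1.trans_le ((min_le_right _ _).trans (min_le_right _ _))
    have hN4 : (1 : ℝ) / N < 1 := hN1.trans_le (min_le_left _ _)
    let y : (Fin (n+1) → ℤ) → (Fin n → ℝ) := fun x j => ((x j.succ - x 0 : ℤ) : ℝ) / N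
    let ins : (Fin (n+1) → ℤ) → Prop := fun x => (0 ≤ ∑ j, x j ∧ ∑ j, x j ≤ n) ∧
      ∀ j k, ((x j - x k : ℤ) : ℝ) ≤ N * B
    let G : (Fin (n+1) → ℤ) → Fin (n+1) → ℝ := fun x =>
      if ins x then Fin.cons 0 (F (y x)) else 0
    let l : (Fin (n+1) → ℤ) → Fin (n+1) := fun x => amin (fun j => (x j : ℝ) / N - G x j)
    have hG : ∀ x j, |G x j| ≤ R := by
      intro x j
      simp only [G]
      split_ifs
      · refine Fin.cases ?_ (fun i => ?_) j
        · simpa using hR0
        · simp only [Fin.cons_succ]
          exact (norm_le_pi_norm (F (y x)) i).trans (hR _)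
      · simpa using hR0
    have hfin : {x | ins x}.Finite := by
      apply (Set.finite_Icc (fun _ : Fin (n+1) => -(⌈N * B⌉ + n + 1))
        (fun _ : Fin (n+1) => (⌈N * B⌉ + n + 1))).subset
      rintro x ⟨⟨h1, h2⟩, h3⟩
      have h3' : ∀ j k, x j - x k ≤ ⌈N * B⌉ := by
        intro j k
        have h4 := (h3 j k).trans (Int.le_ceil _)
        exact_mod_cast h4
      constructor
      · intro j
        by_contra hlt
        have hlt' : x j < -(⌈N * B⌉ + n + 1) := not_le.1 hlt
        have : ∑ k, x k < ∑ k : Fin (n+1), (0 : ℤ) := by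
          apply Finset.sum_lt_sum_of_nonempty ⟨0, Finset.mem_univ _⟩
          intro k _
          have := h3' k j
          omega
        simp at this
        omega
      · intro j
        by_contra hlt
        have hlt' : (⌈N * B⌉ + n + 1) < x j := not_le.1 hlt
        have : ∑ k : Fin (n+1), (1 : ℤ) ≤ ∑ k, x k := by
          apply Finset.sum_le_sum
          intro k _
          have := h3' j k
          omega
        simp at this
        omega
    obtain ⟨s, -, hs⟩ := exists_full l {x | ins x} hfin (by
      intro x hx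
      have hx' : ¬ ins x := hx
      have e0 : (fun j => (x j : ℝ) / N - G x j) = fun j => (x j : ℝ) / N := by
        funext j
        simp only [G, if_neg hx', Pi.zero_apply, sub_zero]
      simp only [l]
      rw [e0]
      symm
      apply amin_unique
      · intro k
        have h1 := amin_le (fun j => (x j : ℝ) / N) k
        exact Int.cast_le.1 ((div_le_div_iff_of_pos_right hNpos).1 h1)
      · intro k hk
        have h1 := amin_lt (fun j => (x j : ℝ) / N) k hk
        exact Int.cast_lt.1 ((div_lt_div_iff_of_pos_right hNpos).1 h1))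
    have hv1 : ∀ c j, s.b j ≤ vtx s c j ∧ vtx s c j ≤ s.b j + 1 := by
      intro c j
      simp only [vtx]
      split_ifs <;> constructor <;> omega
    have hlab : ∀ t, ∃ c, ∀ k, ((vtx s c t : ℤ) : ℝ) / N - G (vtx s c) t ≤
        ((vtx s c k : ℤ) : ℝ) / N - G (vtx s c) k := by
      intro t
      obtain ⟨c, hc⟩ := hs t
      refine ⟨c, fun k => ?_⟩
      have := amin_le (fun j => ((vtx s c) j : ℝ) / N - G (vtx s c) j) k
      have hc' : amin (fun j => ((vtx s c) j : ℝ) / N - G (vtx s c) j) = t := hc
      rw [hc'] at this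
      exact this
    have hins : ∀ c, ins (vtx s c) := by
      intro c1
      refine ⟨⟨?_, ?_⟩, ?_⟩
      · rw [sum_vtx]; positivity
      · rw [sum_vtx]; have := c1.isLt; omega
      · intro j k
        by_contra hlt
        have hlt := not_le.1 hlt
        obtain ⟨c, hc⟩ := hlab j
        have h1 := hc k
        have h2 := abs_le.1 (hG (vtx s c) j)
        have h3 := abs_le.1 (hG (vtx s c) k)
        have h4 := hv1 c j
        have h5 := hv1 c k
        have h6 := hv1 c1 j
        have h7 := hv1 c1 k
        have h8 : (vtx s c1 j - vtx s c1 k) - 2 ≤ vtx s c j - vtx s c k := by omega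
        have h9 : (((vtx s c1 j - vtx s c1 k : ℤ)) : ℝ) - 2 ≤
            ((vtx s c j : ℤ) : ℝ) - ((vtx s c k : ℤ) : ℝ) := by exact_mod_cast h8
        have h10 : ((vtx s c j : ℤ) : ℝ) / N - ((vtx s c k : ℤ) : ℝ) / N ≤ 2 * R := by linarith
        have h11 : ((vtx s c j : ℤ) : ℝ) - ((vtx s c k : ℤ) : ℝ) ≤ 2 * R * N := by
          rw [← sub_div, div_le_iff₀ hNpos] at h10
          exact h10
        have h12 : (N : ℝ) * B - 2 < 2 * R * N := by linarith
        have h13 : (1 : ℝ) < N := by
          rw [div_lt_one hNpos] at hN4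
          exact hN4
        rw [hB] at h12
        nlinarith
    set y0 := y (vtx s 0) with hy0
    have hyK : ∀ c, y (vtx s c) ∈ K := by
      intro c
      rw [hK, mem_closedBall_zero_iff, pi_norm_le_iff_of_nonneg (by rw [hB]; linarith)]
      intro j
      simp only [y]
      rw [Real.norm_eq_abs, abs_div, abs_of_pos hNpos, div_le_iff₀ hNpos, abs_le]
      have h1 := (hins c).2 j.succ 0
      have h2 := (hins c).2 0 j.succ
      push_cast at h1 h2 ⊢
      constructor <;> linarith
    have hdist : ∀ c j, |y (vtx s c) j - y0 j| ≤ 1 / N := by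
      intro c j
      simp only [hy0, y]
      rw [← sub_div, abs_div, abs_of_pos hNpos]
      gcongr
      have h4 := hv1 c j.succ
      have h5 := hv1 c 0
      have hc0 : ∀ j, vtx s 0 j = s.b j := by
        intro j
        simp [vtx]
      rw [hc0, hc0, abs_le]
      have h8 : -1 ≤ (vtx s c j.succ - vtx s c 0) - (s.b j.succ - s.b 0) ∧
        (vtx s c j.succ - vtx s c 0) - (s.b j.succ - s.b 0) ≤ 1 := by omega
      exact ⟨by exact_mod_cast h8.1, by exact_mod_cast h8.2⟩
    have hFd : ∀ c j, |F (y (vtx s c)) j - F y0 j| ≤ ε := by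
      intro c j
      have h1 : dist (y (vtx s c)) y0 < δ := by
        rw [dist_pi_lt_iff hδ]
        intro i
        rw [Real.dist_eq]
        exact (hdist c i).trans_lt hN2
      have h2 := huc _ (hyK c) _ (hyK 0) h1
      have h3 := (dist_le_pi_dist (F (y (vtx s c))) (F y0) j).trans h2.le
      rwa [Real.dist_eq] at h3
    have hGc : ∀ c j, G (vtx s c) j = (Fin.cons 0 (F (y (vtx s c))) : Fin (n+1) → ℝ) j := by
      intro c j
      simp only [G, if_pos (hins c)]
    have hyc : ∀ c (j : Fin n), ((vtx s c j.succ : ℤ) : ℝ) / N = y (vtx s c) j +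
        ((vtx s c 0 : ℤ) : ℝ) / N := by
      intro c j
      simp only [y]
      push_cast
      ring
    refine ⟨y0, hyK 0, ?_⟩
    rw [pi_norm_le_iff_of_nonneg (by positivity)]
    intro k
    rw [Real.norm_eq_abs, Pi.sub_apply, abs_le]
    constructor
    · obtain ⟨c, hc⟩ := hlab k.succ
      have h1 := hc 0
      rw [hGc, hGc, hyc] at h1
      simp only [Fin.cons_succ, Fin.cons_zero] at h1
      have h2 := abs_le.1 (hdist c k)
      have h3 := abs_le.1 (hFd c k)
      linarith
    · obtain ⟨c, hc⟩ := hlab 0
      have h1 := hc k.succ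
      rw [hGc, hGc, hyc] at h1
      simp only [Fin.cons_succ, Fin.cons_zero] at h1
      have h2 := abs_le.1 (hdist c k)
      have h3 := abs_le.1 (hFd c k)
      linarith
  -- compactness
  obtain ⟨y, hyK, hy⟩ := hKc.exists_isMinOn hKne
    ((hF.sub continuous_id).norm.continuousOn : ContinuousOn (fun y => ‖F y - y‖) K)
  have h0 : ‖F y - y‖ = 0 := by
    by_contra hne
    have hpos : 0 < ‖F y - y‖ := lt_of_le_of_ne (norm_nonneg _) (Ne.symm hne)
    obtain ⟨z, hz, hz2⟩ := approx (‖F y - y‖ / 4) (by positivity)
    have := hy hz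
    simp only [Set.mem_ofPred_eq, Pi.sub_apply, id] at this
    linarith
  exact ⟨y, by rw [← sub_eq_zero]; exact norm_eq_zero.1 h0⟩

end MP8fca14.Brw
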