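import Mathlib

set_option autoImplicit false

/-!
# Data for a family of fifteen plane convex sets with the (4,3)-property and piercing number four

`pts` lists fifteen lattice points, each with the list of the sets that contain it; the `i`-th set
is the convex hull of the points whose list contains `i`. `sep` lists triples of sets without a
common point, with three affine functionals `a x + b y - c`, nonpositive on the three sets, whose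
sum is a positive constant. `dis` lists, for each pair of sets, a point of one of them and an affine
functional that separates it from the other one.
-/

namespace Pool.Agent.Lib.MP_8fca14_co

def pts : List ((ℤ × ℤ) × List ℕ) := [
  ((2, 2), [1, 2, 3, 9, 11, 13, 14]), ((-4, 0), [0, 1, 4, 8, 10, 12, 13]),
  ((3, -2), [0, 2, 5, 7, 11, 12, 14]), ((-1, 2), [3, 5, 6, 8, 10, 11, 13]),
  ((-1, -2), [4, 6, 7, 9, 10, 12, 14]), ((0, 1), [1, 3, 5, 9, 11, 13]),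
  ((-1, -1), [0, 1, 4, 6, 10, 12]), ((1, 0), [0, 2, 5, 9, 11, 14]),
  ((-1, 1), [1, 5, 6, 8, 10, 13]), ((0, -1), [0, 6, 7, 9, 12, 14]),
  ((-2, -5), [4, 7, 8, 9, 12, 14]), ((4, 2), [1, 2, 3, 7, 11, 13]),
  ((-9, 2), [0, 3, 4, 8, 10, 12]), ((6, -4), [2, 4, 5, 7, 11, 14]),
  ((-1, 7), [2, 3, 6, 8, 10, 13])]

def sep0 : List ((ℕ × ℕ × ℕ) × (ℤ × ℤ × ℤ) × (ℤ × ℤ × ℤ) × (ℤ × ℤ × ℤ)) := [
  ((1, 4, 9), (6, -10, 4), (3, 7, -10), (-9, 3, 3)),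
  ((1, 8, 9), (-1, -3, 4), (10, 0, -10), (-9, 3, 3)),
  ((1, 7, 9), (3, -5, 2), (-7, 7, -7), (4, -2, 4)),
  ((1, 9, 12), (15, -25, 10), (-21, 7, 7), (6, 18, -18)),
  ((1, 9, 10), (-1, -3, 4), (-9, 3, 3), (10, 0, -10)),
  ((0, 3, 9), (2, 10, 2), (7, -28, -28), (-9, 18, 18)),
  ((0, 4, 9), (-12, -36, 48), (15, 35, -50), (-3, 1, 1)),
  ((0, 8, 9), (-1, -3, 4), (10, 0, -10), (-9, 3, 3)),
  ((0, 9, 13), (2, 10, 2), (-9, 18, 18), (7, -28, -28)),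
  ((0, 9, 10), (-1, -3, 4), (-9, 3, 3), (10, 0, -10)),
  ((4, 5, 9), (9, 24, -33), (-14, -21, 0), (5, -3, 5)),
  ((5, 8, 9), (-3, -4, -1), (5, 0, -5), (-2, 4, 4)),
  ((5, 7, 9), (-15, -20, -5), (-33, 44, -44), (48, -24, 48)),
  ((5, 9, 12), (-12, -18, 0), (5, -3, 5), (7, 21, -21)),
  ((5, 9, 10), (-3, -4, -1), (-2, 4, 4), (5, 0, -5)),
  ((3, 6, 9), (1, -4, -4), (8, 1, -1), (-9, 3, 3)),
  ((2, 6, 9), (-17, -17, -17), (24, 3, -3), (-7, 14, 14)),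
  ((6, 8, 9), (-3, 0, 3), (6, -1, -7), (-3, 1, 1)),
  ((6, 9, 13), (8, 1, -1), (-9, 3, 3), (1, -4, -4)),
  ((6, 9, 11), (24, 3, -3), (-7, 14, 14), (-17, -17, -17))]

def sep1 : List ((ℕ × ℕ × ℕ) × (ℤ × ℤ × ℤ) × (ℤ × ℤ × ℤ) × (ℤ × ℤ × ℤ)) := [
  ((3, 4, 9), (7, -28, -28), (3, 8, -11), (-10, 20, 20)),
  ((3, 8, 9), (1, -4, -4), (1, 0, -1), (-2, 4, 4)),
  ((3, 7, 9), (1, -4, -4), (-7, 7, -7), (6, -3, 6)),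
  ((3, 9, 12), (5, -20, -20), (-7, 14, 14), (2, 6, -6)),
  ((3, 9, 10), (1, -4, -4), (-2, 4, 4), (1, 0, -1)),
  ((2, 4, 9), (-11, -11, -11), (6, 14, -20), (5, -3, 5)),
  ((4, 9, 13), (3, 8, -11), (-10, 20, 20), (7, -28, -28)),
  ((4, 9, 11), (6, 14, -20), (5, -3, 5), (-11, -11, -11)),
  ((2, 8, 9), (-2, -2, -2), (3, 0, -3), (-1, 2, 2)),
  ((2, 7, 9), (-5, -5, -5), (-9, 12, -12), (14, -7, 14)),
  ((2, 9, 12), (-7, -7, -7), (4, -2, 4), (3, 9, -9)),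
  ((2, 9, 10), (-2, -2, -2), (-1, 2, 2), (3, 0, -3)),
  ((8, 9, 13), (1, 0, -1), (-2, 4, 4), (1, -4, -4)),
  ((8, 9, 11), (3, 0, -3), (-1, 2, 2), (-2, -2, -2)),
  ((8, 9, 10), (42, -7, -49), (-39, 13, 13), (-3, -6, 15)),
  ((7, 9, 13), (-7, 7, -7), (6, -3, 6), (1, -4, -4)),
  ((7, 9, 11), (-9, 12, -12), (14, -7, 14), (-5, -5, -5)),
  ((9, 12, 13), (-7, 14, 14), (2, 6, -6), (5, -20, -20)),
  ((9, 10, 13), (-2, 4, 4), (1, 0, -1), (1, -4, -4)),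
  ((9, 11, 12), (4, -2, 4), (-7, -7, -7), (3, 9, -9))]

def sep2 : List ((ℕ × ℕ × ℕ) × (ℤ × ℤ × ℤ) × (ℤ × ℤ × ℤ) × (ℤ × ℤ × ℤ)) := [
  ((9, 10, 11), (-1, 2, 2), (3, 0, -3), (-2, -2, -2)),
  ((0, 1, 3), (3, 15, 3), (-1, 3, 4), (-2, -18, -18)),
  ((0, 1, 2), (2, 10, 2), (3, -5, 2), (-5, -5, -5)),
  ((0, 1, 7), (1, 1, 1), (3, -5, 2), (-4, 4, -4)),
  ((0, 1, 11), (2, 10, 2), (3, -5, 2), (-5, -5, -5)),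
  ((1, 4, 5), (-5, -15, 20), (9, 21, -30), (-4, -6, 0)),
  ((1, 5, 7), (39, -65, 26), (12, 14, 16), (-51, 51, -51)),
  ((1, 5, 12), (9, -15, 6), (-28, -42, 0), (19, 57, -57)),
  ((1, 2, 6), (-7, 21, 28), (-25, -25, -25), (32, 4, -4)),
  ((1, 6, 7), (3, -5, 2), (3, -3, 3), (-6, 8, -8)),
  ((1, 6, 11), (-7, 21, 28), (32, 4, -4), (-25, -25, -25)),
  ((1, 6, 14), (84, -140, 56), (88, 11, -11), (-172, 129, -86)),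
  ((1, 3, 4), (-5, 15, 20), (-4, -36, -36), (9, 21, -30)),
  ((1, 3, 8), (-3, 9, 12), (-1, -9, -9), (4, 0, -4)),
  ((1, 3, 12), (-1, 3, 4), (-1, -9, -9), (2, 6, -6)),
  ((1, 3, 10), (-3, 9, 12), (-1, -9, -9), (4, 0, -4)),
  ((1, 2, 4), (-2, -6, 8), (-1, -1, -1), (3, 7, -10)),
  ((1, 4, 7), (6, -10, 4), (3, 7, -10), (-9, 3, 3)),
  ((1, 4, 11), (-2, -6, 8), (3, 7, -10), (-1, -1, -1)),
  ((1, 4, 14), (6, -10, 4), (3, 7, -10), (-9, 3, 3))]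

def sep3 : List ((ℕ × ℕ × ℕ) × (ℤ × ℤ × ℤ) × (ℤ × ℤ × ℤ) × (ℤ × ℤ × ℤ)) := [
  ((1, 2, 8), (-1, 3, 4), (-3, -3, -3), (4, 0, -4)),
  ((1, 2, 12), (3, -5, 2), (-7, -7, -7), (4, 12, -12)),
  ((1, 2, 10), (-1, 3, 4), (-3, -3, -3), (4, 0, -4)),
  ((1, 7, 8), (-1, -3, 4), (-3, 3, -3), (4, 0, -4)),
  ((1, 8, 11), (-1, 3, 4), (4, 0, -4), (-3, -3, -3)),
  ((1, 8, 14), (-1, -3, 4), (5, 0, -5), (-4, 3, -2)),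
  ((1, 7, 12), (6, -10, 4), (-7, 7, -7), (1, 3, -3)),
  ((1, 7, 10), (-1, -3, 4), (-3, 3, -3), (4, 0, -4)),
  ((1, 7, 14), (18, -30, 12), (-21, 28, -28), (3, 2, 10)),
  ((1, 11, 12), (3, -5, 2), (-7, -7, -7), (4, 12, -12)),
  ((1, 12, 14), (15, -25, 10), (6, 18, -18), (-21, 7, 7)),
  ((1, 10, 11), (-1, 3, 4), (4, 0, -4), (-3, -3, -3)),
  ((1, 10, 14), (-1, -3, 4), (5, 0, -5), (-4, 3, -2)),
  ((0, 5, 6), (29, 145, 29), (-117, -156, -39), (88, 11, -11)),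
  ((0, 3, 5), (4, 20, 4), (5, -20, -20), (-9, 0, 9)),
  ((0, 4, 5), (-1, -4, 5), (3, 7, -10), (-2, -3, 0)),
  ((0, 5, 8), (3, 15, 3), (-10, -15, 0), (7, 0, -7)),
  ((0, 5, 13), (4, 20, 4), (-9, 0, 9), (5, -20, -20)),
  ((0, 5, 10), (3, 15, 3), (-10, -15, 0), (7, 0, -7)),
  ((0, 3, 6), (4, 20, 4), (5, -20, -20), (-9, 0, 9))]

def sep4 : List ((ℕ × ℕ × ℕ) × (ℤ × ℤ × ℤ) × (ℤ × ℤ × ℤ) × (ℤ × ℤ × ℤ)) := [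
  ((0, 2, 6), (7, 35, 7), (-39, -39, -39), (32, 4, -4)),
  ((0, 6, 8), (1, 5, 1), (-31, 0, 31), (30, -5, -35)),
  ((0, 6, 13), (4, 20, 4), (-9, 0, 9), (5, -20, -20)),
  ((0, 6, 11), (7, 35, 7), (32, 4, -4), (-39, -39, -39)),
  ((0, 2, 3), (6, 6, 6), (-7, -2, -7), (1, -4, -4)),
  ((0, 3, 7), (3, 3, 3), (2, -8, -8), (-5, 5, -5)),
  ((0, 3, 13), (33, 165, 33), (-19, -171, -171), (-14, 6, 56)),
  ((0, 3, 11), (2, 10, 2), (-1, -9, -9), (-1, -1, -1)),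
  ((0, 3, 14), (13, 13, 13), (7, -28, -28), (-20, 15, -10)),
  ((0, 2, 4), (-2, -6, 8), (-1, -1, -1), (3, 7, -10)),
  ((0, 4, 7), (-2, -8, 10), (3, 7, -10), (-1, 1, -1)),
  ((0, 4, 11), (-2, -6, 8), (3, 7, -10), (-1, -1, -1)),
  ((0, 4, 14), (-12, -36, 48), (15, 35, -50), (-3, 1, 1)),
  ((0, 2, 8), (1, 5, 1), (-5, -5, -5), (4, 0, -4)),
  ((0, 2, 13), (6, 6, 6), (-7, -2, -7), (1, -4, -4)),
  ((0, 2, 10), (1, 5, 1), (-5, -5, -5), (4, 0, -4)),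
  ((0, 7, 8), (-1, -3, 4), (-3, 3, -3), (4, 0, -4)),
  ((0, 8, 11), (1, 5, 1), (4, 0, -4), (-5, -5, -5)),
  ((0, 8, 14), (-1, -3, 4), (5, 0, -5), (-4, 3, -2)),
  ((0, 7, 13), (3, 3, 3), (-5, 5, -5), (2, -8, -8))]

def sep5 : List ((ℕ × ℕ × ℕ) × (ℤ × ℤ × ℤ) × (ℤ × ℤ × ℤ) × (ℤ × ℤ × ℤ)) := [
  ((0, 7, 10), (-1, -3, 4), (-3, 3, -3), (4, 0, -4)),
  ((0, 11, 13), (5, 25, 5), (-9, -9, -9), (4, -16, -16)),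
  ((0, 13, 14), (13, 13, 13), (7, -28, -28), (-20, 15, -10)),
  ((0, 10, 11), (1, 5, 1), (4, 0, -4), (-5, -5, -5)),
  ((0, 10, 14), (-1, -3, 4), (5, 0, -5), (-4, 3, -2)),
  ((4, 5, 6), (3, 7, -10), (-4, -6, 0), (1, -1, 1)),
  ((2, 5, 6), (-350, -100, -350), (54, 63, 72), (296, 37, -37)),
  ((5, 6, 7), (-2, -3, 0), (17, -17, 17), (-15, 20, -20)),
  ((5, 6, 12), (-8, -12, 0), (3, -3, 3), (5, 15, -15)),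
  ((5, 6, 14), (-28, -42, 0), (72, 9, -9), (-44, 33, -22)),
  ((3, 4, 5), (2, -8, -8), (3, 8, -11), (-5, 0, 5)),
  ((2, 3, 5), (-217, -62, -217), (37, -148, -148), (180, 210, 240)),
  ((3, 5, 7), (13, -52, -52), (18, 21, 24), (-31, 31, -31)),
  ((3, 5, 12), (-1, -9, -9), (-2, 0, 2), (3, 9, -9)),
  ((3, 5, 14), (46, -184, -184), (78, 91, 104), (-124, 93, -62)),
  ((4, 5, 8), (3, 8, -11), (-6, -8, -2), (3, 0, -3)),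
  ((4, 5, 13), (3, 8, -11), (-5, 0, 5), (2, -8, -8)),
  ((4, 5, 12), (9, 21, -30), (-12, -16, -4), (3, -5, 19)),
  ((4, 5, 10), (3, 8, -11), (-6, -8, -2), (3, 0, -3)),
  ((2, 5, 8), (-49, -14, -49), (12, 14, 16), (37, 0, -37))]

def sep6 : List ((ℕ × ℕ × ℕ) × (ℤ × ℤ × ℤ) × (ℤ × ℤ × ℤ) × (ℤ × ℤ × ℤ)) := [
  ((2, 5, 13), (-217, -62, -217), (180, 210, 240), (37, -148, -148)),
  ((2, 5, 10), (-49, -14, -49), (12, 14, 16), (37, 0, -37)),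
  ((5, 7, 8), (-2, -3, 0), (-3, 3, -3), (5, 0, -5)),
  ((5, 8, 12), (-2, -3, 0), (1, 0, -1), (1, 3, -3)),
  ((5, 8, 14), (-2, -3, 0), (6, 0, -6), (-4, 3, -2)),
  ((5, 7, 13), (18, 21, 24), (-31, 31, -31), (13, -52, -52)),
  ((5, 7, 10), (-2, -3, 0), (-3, 3, -3), (5, 0, -5)),
  ((5, 12, 13), (-7, 0, 7), (4, 12, -12), (3, -12, -12)),
  ((5, 13, 14), (78, 91, 104), (46, -184, -184), (-124, 93, -62)),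
  ((5, 10, 12), (-2, -3, 0), (1, 0, -1), (1, 3, -3)),
  ((5, 10, 14), (-2, -3, 0), (6, 0, -6), (-4, 3, -2)),
  ((3, 4, 6), (2, -8, -8), (3, 8, -11), (-5, 0, 5)),
  ((3, 6, 7), (1, -4, -4), (8, 1, -1), (-9, 3, 3)),
  ((3, 6, 12), (-1, -9, -9), (-2, 0, 2), (3, 9, -9)),
  ((3, 6, 14), (1, -4, -4), (8, 1, -1), (-9, 3, 3)),
  ((2, 4, 6), (-5, -5, -5), (3, 7, -10), (2, -2, 2)),
  ((4, 6, 8), (3, 7, -10), (-45, 0, 45), (42, -7, -49)),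
  ((4, 6, 13), (3, 8, -11), (-5, 0, 5), (2, -8, -8)),
  ((4, 6, 11), (3, 7, -10), (2, -2, 2), (-5, -5, -5)),
  ((2, 6, 7), (-1, -1, -1), (7, -7, 7), (-6, 8, -8))]

def sep7 : List ((ℕ × ℕ × ℕ) × (ℤ × ℤ × ℤ) × (ℤ × ℤ × ℤ) × (ℤ × ℤ × ℤ)) := [
  ((2, 6, 12), (-2, -2, -2), (1, -1, 1), (1, 3, -3)),
  ((2, 6, 11), (-56, -16, -56), (56, 7, -7), (0, 9, 18)),
  ((2, 6, 14), (-4, -4, -4), (8, 1, -1), (-4, 3, -2)),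
  ((6, 7, 8), (-5, 0, 5), (-1, 1, -1), (6, -1, -7)),
  ((6, 8, 12), (-19, 0, 19), (18, -3, -21), (1, 3, -3)),
  ((6, 8, 14), (-3, 0, 3), (6, -1, -7), (-3, 1, 1)),
  ((6, 7, 13), (8, 1, -1), (-9, 3, 3), (1, -4, -4)),
  ((6, 7, 11), (7, -7, 7), (-6, 8, -8), (-1, -1, -1)),
  ((6, 12, 13), (-7, 0, 7), (4, 12, -12), (3, -12, -12)),
  ((6, 13, 14), (8, 1, -1), (1, -4, -4), (-9, 3, 3)),
  ((6, 11, 12), (1, -1, 1), (-2, -2, -2), (1, 3, -3)),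
  ((6, 11, 14), (8, 1, -1), (-4, -4, -4), (-4, 3, -2)),
  ((2, 3, 4), (-4, -4, -4), (1, -4, -4), (3, 8, -11)),
  ((3, 4, 7), (-1, -9, -9), (3, 7, -10), (-2, 2, -2)),
  ((3, 4, 13), (-29, -261, -261), (99, 231, -330), (-70, 30, 280)),
  ((3, 4, 11), (1, -4, -4), (3, 8, -11), (-4, -4, -4)),
  ((3, 4, 14), (-6, -54, -54), (21, 49, -70), (-15, 5, 5)),
  ((2, 3, 12), (-3, -3, -3), (-1, -9, -9), (4, 12, -12)),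
  ((3, 7, 8), (1, -4, -4), (-3, 4, -4), (2, 0, -2)),
  ((3, 8, 14), (1, -4, -4), (11, 0, -11), (-12, 4, 4))]

def sep8 : List ((ℕ × ℕ × ℕ) × (ℤ × ℤ × ℤ) × (ℤ × ℤ × ℤ) × (ℤ × ℤ × ℤ)) := [
  ((3, 7, 12), (4, -16, -16), (-7, 7, -7), (3, 9, -9)),
  ((3, 7, 10), (1, -4, -4), (-3, 4, -4), (2, 0, -2)),
  ((3, 7, 14), (5, -20, -20), (-14, 14, -14), (9, 6, 30)),
  ((3, 12, 13), (-4, -36, -36), (11, 33, -33), (-7, 3, 28)),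
  ((3, 11, 12), (-1, -9, -9), (-3, -3, -3), (4, 12, -12)),
  ((3, 12, 14), (10, -40, -40), (11, 33, -33), (-21, 7, 7)),
  ((3, 10, 14), (1, -4, -4), (11, 0, -11), (-12, 4, 4)),
  ((2, 4, 8), (-7, -7, -7), (3, 7, -10), (4, 0, -4)),
  ((2, 4, 13), (-4, -4, -4), (3, 8, -11), (1, -4, -4)),
  ((2, 4, 12), (-9, -9, -9), (6, 14, -20), (3, -5, 19)),
  ((2, 4, 10), (-7, -7, -7), (3, 7, -10), (4, 0, -4)),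
  ((4, 8, 11), (3, 7, -10), (4, 0, -4), (-7, -7, -7)),
  ((4, 7, 13), (6, 16, -22), (-15, 20, -20), (9, -36, -36)),
  ((4, 11, 13), (3, 8, -11), (-4, -4, -4), (1, -4, -4)),
  ((4, 13, 14), (33, 77, -110), (24, -96, -96), (-57, 19, 19)),
  ((4, 11, 12), (6, 14, -20), (-9, -9, -9), (3, -5, 19)),
  ((4, 10, 11), (3, 7, -10), (4, 0, -4), (-7, -7, -7)),
  ((2, 7, 8), (-1, -1, -1), (-1, 1, -1), (2, 0, -2)),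
  ((2, 8, 12), (-3, -3, -3), (2, 0, -2), (1, 3, -3)),
  ((2, 8, 11), (-7, -2, -7), (7, 0, -7), (0, 2, 4))]

def sep9 : List ((ℕ × ℕ × ℕ) × (ℤ × ℤ × ℤ) × (ℤ × ℤ × ℤ) × (ℤ × ℤ × ℤ)) := [
  ((2, 8, 14), (-1, -1, -1), (4, 0, -4), (-3, 1, 1)),
  ((2, 7, 10), (-1, -1, -1), (-1, 1, -1), (2, 0, -2)),
  ((2, 12, 13), (-7, -7, -7), (5, 15, -15), (2, -8, -8)),
  ((2, 10, 12), (-3, -3, -3), (2, 0, -2), (1, 3, -3)),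
  ((2, 10, 11), (-7, -2, -7), (7, 0, -7), (0, 2, 4)),
  ((2, 10, 14), (-1, -1, -1), (4, 0, -4), (-3, 1, 1)),
  ((7, 8, 13), (-3, 4, -4), (2, 0, -2), (1, -4, -4)),
  ((7, 8, 11), (-1, 1, -1), (2, 0, -2), (-1, -1, -1)),
  ((7, 8, 10), (-13, 13, -13), (18, -3, -21), (-5, -10, 25)),
  ((8, 13, 14), (11, 0, -11), (1, -4, -4), (-12, 4, 4)),
  ((8, 11, 12), (2, 0, -2), (-3, -3, -3), (1, 3, -3)),
  ((8, 11, 14), (4, 0, -4), (-1, -1, -1), (-3, 1, 1)),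
  ((8, 10, 14), (42, -7, -49), (-3, -6, 15), (-39, 13, 13)),
  ((7, 12, 13), (-7, 7, -7), (3, 9, -9), (4, -16, -16)),
  ((7, 10, 13), (-3, 4, -4), (2, 0, -2), (1, -4, -4)),
  ((7, 13, 14), (-14, 14, -14), (5, -20, -20), (9, 6, 30)),
  ((7, 10, 11), (-1, 1, -1), (2, 0, -2), (-1, -1, -1)),
  ((11, 12, 13), (-7, -7, -7), (5, 15, -15), (2, -8, -8)),
  ((12, 13, 14), (11, 33, -33), (10, -40, -40), (-21, 7, 7)),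
  ((10, 13, 14), (11, 0, -11), (1, -4, -4), (-12, 4, 4))]

def sep10 : List ((ℕ × ℕ × ℕ) × (ℤ × ℤ × ℤ) × (ℤ × ℤ × ℤ) × (ℤ × ℤ × ℤ)) := [
  ((10, 11, 12), (2, 0, -2), (-3, -3, -3), (1, 3, -3)),
  ((10, 11, 14), (4, 0, -4), (-1, -1, -1), (-3, 1, 1))]

def sep : List ((ℕ × ℕ × ℕ) × (ℤ × ℤ × ℤ) × (ℤ × ℤ × ℤ) × (ℤ × ℤ × ℤ)) :=
  sep0 ++ sep1 ++ sep2 ++ sep3 ++ sep4 ++ sep5 ++ sep6 ++ sep7 ++ sep8 ++ sep9 ++ sep10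

def dis0 : List (ℕ × ℕ × ℕ × (ℤ × ℤ × ℤ)) := [
  (9, 1, 4, (-1, -3, 4)), (9, 0, 0, (2, 2, 2)), (9, 5, 0, (6, 7, 8)), (9, 6, 0, (8, 1, -1)),
  (9, 3, 4, (-1, -9, -9)), (9, 4, 0, (3, 7, -10)), (9, 2, 4, (-7, -2, -7)),
  (9, 8, 0, (6, -1, -7)), (9, 7, 0, (-3, 4, -4)), (9, 13, 4, (2, -8, -8)),
  (9, 12, 0, (4, 12, -12)), (9, 11, 4, (-4, -4, -4)), (9, 10, 0, (9, 0, -9)),
  (9, 14, 5, (-4, 3, -2)), (1, 0, 0, (2, 2, 2)), (1, 5, 0, (6, 7, 8)), (1, 6, 0, (8, 1, -1)),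
  (1, 3, 1, (-1, -9, -9)), (1, 4, 0, (3, 7, -10)), (1, 2, 1, (-7, -2, -7))]

def dis1 : List (ℕ × ℕ × ℕ × (ℤ × ℤ × ℤ)) := [
  (1, 8, 0, (6, -1, -7)), (1, 7, 0, (-3, 4, -4)), (1, 13, 6, (2, -8, -8)),
  (1, 12, 0, (4, 12, -12)), (1, 11, 1, (-4, -4, -4)), (1, 10, 0, (9, 0, -9)),
  (1, 14, 1, (-4, 3, -2)), (0, 5, 1, (-3, -4, -1)), (0, 6, 1, (-9, 0, 9)),
  (0, 3, 1, (-1, -9, -9)), (0, 4, 2, (3, 7, -10)), (0, 2, 1, (-7, -2, -7)),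
  (0, 8, 2, (6, -1, -7)), (0, 7, 1, (-3, 4, -4)), (0, 13, 2, (2, -8, -8)),
  (0, 12, 7, (4, 12, -12)), (0, 11, 1, (-4, -4, -4)), (0, 10, 2, (9, 0, -9)),
  (0, 14, 1, (-4, 3, -2)), (5, 6, 2, (1, -1, 1))]

def dis2 : List (ℕ × ℕ × ℕ × (ℤ × ℤ × ℤ)) := [
  (5, 3, 2, (-1, -9, -9)), (5, 4, 2, (3, 7, -10)), (5, 2, 3, (-7, -2, -7)),
  (5, 8, 2, (6, -1, -7)), (5, 7, 3, (-3, 4, -4)), (5, 13, 2, (2, -8, -8)),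
  (5, 12, 3, (4, 12, -12)), (5, 11, 8, (-4, -4, -4)), (5, 10, 2, (9, 0, -9)),
  (5, 14, 3, (-4, 3, -2)), (6, 3, 4, (-1, -9, -9)), (6, 4, 3, (3, 7, -10)),
  (6, 2, 3, (-7, -2, -7)), (6, 8, 4, (6, -1, -7)), (6, 7, 3, (-3, 4, -4)),
  (6, 13, 4, (2, -8, -8)), (6, 12, 3, (4, 12, -12)), (6, 11, 4, (-4, -4, -4)),
  (6, 10, 9, (9, 0, -9)), (6, 14, 3, (-4, 3, -2))]

def dis3 : List (ℕ × ℕ × ℕ × (ℤ × ℤ × ℤ)) := [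
  (3, 4, 0, (3, 7, -10)), (3, 2, 3, (-7, -2, -7)), (3, 8, 0, (6, -1, -7)),
  (3, 7, 0, (-3, 4, -4)), (3, 13, 12, (-7, 3, 28)), (3, 12, 0, (4, 12, -12)),
  (3, 11, 12, (-4, -4, -4)), (3, 10, 0, (9, 0, -9)), (3, 14, 3, (-4, 3, -2)),
  (4, 2, 1, (-7, -2, -7)), (4, 8, 4, (6, -1, -7)), (4, 7, 1, (-3, 4, -4)),
  (4, 13, 4, (2, -8, -8)), (4, 12, 13, (3, -5, 19)), (4, 11, 1, (-4, -4, -4)),
  (4, 10, 10, (-4, -8, 20)), (4, 14, 1, (-4, 3, -2)), (2, 8, 0, (6, -1, -7)),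
  (2, 7, 0, (-3, 4, -4)), (2, 13, 2, (2, -8, -8))]

def dis4 : List (ℕ × ℕ × ℕ × (ℤ × ℤ × ℤ)) := [
  (2, 12, 0, (4, 12, -12)), (2, 11, 14, (0, 5, 10)), (2, 10, 0, (9, 0, -9)),
  (2, 14, 11, (6, 4, 20)), (8, 7, 1, (-3, 4, -4)), (8, 13, 10, (2, -8, -8)),
  (8, 12, 3, (4, 12, -12)), (8, 11, 1, (-4, -4, -4)), (8, 10, 10, (-4, -8, 20)),
  (8, 14, 1, (-4, 3, -2)), (7, 13, 2, (2, -8, -8)), (7, 12, 11, (4, 12, -12)),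
  (7, 11, 4, (-4, -4, -4)), (7, 10, 2, (9, 0, -9)), (7, 14, 11, (6, 4, 20)),
  (13, 12, 0, (4, 12, -12)), (13, 11, 1, (-4, -4, -4)), (13, 10, 0, (9, 0, -9)),
  (13, 14, 1, (-4, 3, -2)), (12, 11, 1, (-4, -4, -4))]

def dis5 : List (ℕ × ℕ × ℕ × (ℤ × ℤ × ℤ)) := [
  (12, 10, 2, (9, 0, -9)), (12, 14, 1, (-4, 3, -2)), (11, 10, 0, (9, 0, -9)),
  (11, 14, 3, (-4, 3, -2)), (10, 14, 1, (-4, 3, -2))]

def dis : List (ℕ × ℕ × ℕ × (ℤ × ℤ × ℤ)) :=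
  dis0 ++ dis1 ++ dis2 ++ dis3 ++ dis4 ++ dis5

end Pool.Agent.Lib.MP_8fca14_co
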