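import Pool.Agent.Lib.MP_8fca14_co.Data

set_option autoImplicit false

namespace Pool.Agent.Lib.MP_8fca14_co

/-- the plane point of a lattice point -/
noncomputable def pt (v : ℤ × ℤ) : EuclideanSpace ℝ (Fin 2) := !₂[(v.1 : ℝ), (v.2 : ℝ)]

/-- the generating points of the `i`-th set -/
def vs (i : ℕ) : List (ℤ × ℤ) := (pts.filter (fun q => q.2.elem i)).map (fun q => q.1)

/-- the `i`-th set -/
noncomputable def C (i : ℕ) : Set (EuclideanSpace ℝ (Fin 2)) :=
  convexHull ℝ (pt '' {v | v ∈ vs i})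

lemma convex_C (i : ℕ) : Convex ℝ (C i) := convex_convexHull _ _

lemma compact_C (i : ℕ) : IsCompact (C i) :=
  Set.Finite.isCompact_convexHull ℝ ((List.finite_toSet (vs i)).image _)

lemma mem_C {q : (ℤ × ℤ) × List ℕ} {i : ℕ} (hq : q ∈ pts) (hi : q.2.elem i = true) :
    pt q.1 ∈ C i := by
  apply subset_convexHull
  refine ⟨q.1, ?_, rfl⟩
  simp only [vs, Set.mem_ofPred_eq, List.mem_map, List.mem_filter]
  exact ⟨q, ⟨hq, hi⟩, rfl⟩

/-- the functional `f.1 x + f.2.1 y - f.2.2` is nonpositive on the generators of the `i`-th set -/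
def leOn (i : ℕ) (f : ℤ × ℤ × ℤ) : Bool :=
  (vs i).all (fun v => decide (f.1 * v.1 + f.2.1 * v.2 ≤ f.2.2))

lemma le_of_mem {i : ℕ} {f : ℤ × ℤ × ℤ} (h : leOn i f = true)
    {p : EuclideanSpace ℝ (Fin 2)} (hp : p ∈ C i) :
    (f.1 : ℝ) * p 0 + f.2.1 * p 1 ≤ f.2.2 := by
  have hconv : Convex ℝ {p : EuclideanSpace ℝ (Fin 2) | (f.1 : ℝ) * p 0 + f.2.1 * p 1 ≤ f.2.2} := by
    apply convex_halfSpace_le
    constructor
    · intro x y; simp; ring
    · intro c x; simp; ring
  have hsub : C i ⊆ {p : EuclideanSpace ℝ (Fin 2) | (f.1 : ℝ) * p 0 + f.2.1 * p 1 ≤ f.2.2} := by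
    apply convexHull_min _ hconv
    rintro _ ⟨v, hv, rfl⟩
    simp only [leOn, List.all_eq_true, decide_eq_true_eq] at h
    have h1 := h v hv
    simp only [Set.mem_ofPred_eq, pt]
    simp
    exact_mod_cast h1
  exact hsub hp

/-- check of one separation certificate -/
def sepOK (e : (ℕ × ℕ × ℕ) × (ℤ × ℤ × ℤ) × (ℤ × ℤ × ℤ) × (ℤ × ℤ × ℤ)) : Bool :=
  leOn e.1.1 e.2.1 && leOn e.1.2.1 e.2.2.1 && leOn e.1.2.2 e.2.2.2 &&
    decide (e.2.1.1 + e.2.2.1.1 + e.2.2.2.1 = 0) &&
    decide (e.2.1.2.1 + e.2.2.1.2.1 + e.2.2.2.2.1 = 0) &&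
    decide (e.2.1.2.2 + e.2.2.1.2.2 + e.2.2.2.2.2 < 0)

lemma sep_sound {e : (ℕ × ℕ × ℕ) × (ℤ × ℤ × ℤ) × (ℤ × ℤ × ℤ) × (ℤ × ℤ × ℤ)}
    (h : sepOK e = true) {p : EuclideanSpace ℝ (Fin 2)} (h1 : p ∈ C e.1.1) (h2 : p ∈ C e.1.2.1)
    (h3 : p ∈ C e.1.2.2) : False := by
  simp only [sepOK, Bool.and_eq_true, decide_eq_true_eq] at h
  obtain ⟨⟨⟨⟨⟨a1, a2⟩, a3⟩, s1⟩, s2⟩, s3⟩ := h
  have b1 := le_of_mem a1 h1
  have b2 := le_of_mem a2 h2
  have b3 := le_of_mem a3 h3
  have s1' : ((e.2.1.1 : ℝ) + e.2.2.1.1 + e.2.2.2.1) = 0 := by exact_mod_cast s1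
  have s2' : ((e.2.1.2.1 : ℝ) + e.2.2.1.2.1 + e.2.2.2.2.1) = 0 := by exact_mod_cast s2
  have s3' : ((e.2.1.2.2 : ℝ) + e.2.2.1.2.2 + e.2.2.2.2.2) < 0 := by exact_mod_cast s3
  have e1 : (e.2.1.1 : ℝ) * p 0 + e.2.2.1.1 * p 0 + e.2.2.2.1 * p 0 = 0 := by
    rw [← add_mul, ← add_mul, s1', zero_mul]
  have e2 : (e.2.1.2.1 : ℝ) * p 1 + e.2.2.1.2.1 * p 1 + e.2.2.2.2.1 * p 1 = 0 := by
    rw [← add_mul, ← add_mul, s2', zero_mul]
  linarith

lemma all_sep : sep.all sepOK = true := by decide +kernel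

/-- pairs `(a, b)` such that `(a, b, v)` is a triple of `sep` -/
def prs (v : ℕ) : List (ℕ × ℕ) :=
  (sep.filter (fun e => e.1.2.2 == v)).map (fun e => (e.1.1, e.1.2.1))

/-- some pair of the list has both members in the class `m` -/
def conf (L : List (ℕ × ℕ)) (m : ℕ) : Bool := L.any (fun ab => m.testBit ab.1 && m.testBit ab.2)

/-- every three-colouring extending the classes `m0`, `m1`, `m2` of the first `v` sets has a
monochromatic triple of `sep` -/
def bt : List (List (ℕ × ℕ)) → ℕ → ℕ → ℕ → ℕ → Bool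
  | [], _, _, _, _ => false
  | L :: Ls, v, m0, m1, m2 =>
    (conf L m0 || bt Ls (v + 1) (m0 ||| 2 ^ v) m1 m2) &&
    (conf L m1 || bt Ls (v + 1) m0 (m1 ||| 2 ^ v) m2) &&
    (conf L m2 || bt Ls (v + 1) m0 m1 (m2 ||| 2 ^ v))

lemma bt_true : bt ((List.range 15).map prs) 0 0 0 0 = true := by decide +kernel

lemma conf_sound {v m : ℕ} (h : conf (prs v) m = true) :
    ∃ e ∈ sep, e.1.2.2 = v ∧ m.testBit e.1.1 = true ∧ m.testBit e.1.2.1 = true := by
  simp only [conf, prs, List.any_map, List.any_eq_true, List.mem_filter, Function.comp,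
    Bool.and_eq_true, beq_iff_eq] at h
  obtain ⟨e, ⟨he, hv⟩, h1, h2⟩ := h
  exact ⟨e, he, hv, h1, h2⟩

lemma bt_sound (col : ℕ → ℕ) (hcol : ∀ v, col v < 3) : ∀ (k v m0 m1 m2 : ℕ),
    (∀ u, m0.testBit u = true ↔ u < v ∧ col u = 0) →
    (∀ u, m1.testBit u = true ↔ u < v ∧ col u = 1) →
    (∀ u, m2.testBit u = true ↔ u < v ∧ col u = 2) →
    bt ((List.range' v k).map prs) v m0 m1 m2 = true →
    ∃ e ∈ sep, col e.1.1 = col e.1.2.1 ∧ col e.1.2.1 = col e.1.2.2 := by
  intro k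
  induction k with
  | zero => intro v m0 m1 m2 _ _ _ h; simp [bt] at h
  | succ k ih =>
    intro v m0 m1 m2 h0 h1 h2 h
    rw [List.range'_succ, List.map_cons, bt] at h
    simp only [Bool.and_eq_true, Bool.or_eq_true] at h
    obtain ⟨⟨c0, c1⟩, c2⟩ := h
    have step : ∀ (m c : ℕ), (∀ u, m.testBit u = true ↔ u < v ∧ col u = c) → col v = c →
        (∀ u, (m ||| 2 ^ v).testBit u = true ↔ u < v + 1 ∧ col u = c) := by
      intro m c hm hc u
      rw [Nat.testBit_or, Bool.or_eq_true, hm, Nat.testBit_two_pow, decide_eq_true_eq]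
      constructor
      · rintro (⟨a, b⟩ | a)
        · exact ⟨by omega, b⟩
        · subst a; exact ⟨by omega, hc⟩
      · rintro ⟨a, b⟩
        rcases Nat.lt_succ_iff_lt_or_eq.1 a with a | a
        · exact Or.inl ⟨a, b⟩
        · exact Or.inr a.symm
    have keep : ∀ (m c : ℕ), (∀ u, m.testBit u = true ↔ u < v ∧ col u = c) → col v ≠ c →
        (∀ u, m.testBit u = true ↔ u < v + 1 ∧ col u = c) := by
      intro m c hm hc u
      rw [hm]
      constructor
      · rintro ⟨a, b⟩; exact ⟨by omega, b⟩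
      · rintro ⟨a, b⟩
        refine ⟨?_, b⟩
        rcases Nat.lt_succ_iff_lt_or_eq.1 a with a | a
        · exact a
        · subst a; exact absurd b hc
    have fin : ∀ (m c : ℕ), (∀ u, m.testBit u = true ↔ u < v ∧ col u = c) → col v = c →
        conf (prs v) m = true →
        ∃ e ∈ sep, col e.1.1 = col e.1.2.1 ∧ col e.1.2.1 = col e.1.2.2 := by
      intro m c hm hc hh
      obtain ⟨e, he, ev, e1, e2⟩ := conf_sound hh
      have f1 := ((hm _).1 e1).2
      have f2 := ((hm _).1 e2).2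
      exact ⟨e, he, by rw [f1, f2], by rw [f2, ev, hc]⟩
    have hlt := hcol v
    have hcases : col v = 0 ∨ col v = 1 ∨ col v = 2 := by omega
    rcases hcases with hc | hc | hc
    · rcases c0 with c0 | c0
      · exact fin m0 0 h0 hc c0
      · exact ih (v + 1) _ _ _ (step m0 0 h0 hc) (keep m1 1 h1 (by omega))
          (keep m2 2 h2 (by omega)) c0
    · rcases c1 with c1 | c1
      · exact fin m1 1 h1 hc c1
      · exact ih (v + 1) _ _ _ (keep m0 0 h0 (by omega)) (step m1 1 h1 hc)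
          (keep m2 2 h2 (by omega)) c1
    · rcases c2 with c2 | c2
      · exact fin m2 2 h2 hc c2
      · exact ih (v + 1) _ _ _ (keep m0 0 h0 (by omega)) (keep m1 1 h1 (by omega))
          (step m2 2 h2 hc) c2

lemma exists_mono (col : ℕ → ℕ) (hcol : ∀ v, col v < 3) :
    ∃ e ∈ sep, col e.1.1 = col e.1.2.1 ∧ col e.1.2.1 = col e.1.2.2 := by
  refine bt_sound col hcol 15 0 0 0 0 ?_ ?_ ?_ ?_
  · intro u; simp
  · intro u; simp
  · intro u; simp
  · rw [← List.range_eq_range']; exact bt_true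

lemma sep_lt : sep.all (fun e => decide (e.1.1 < 15) && decide (e.1.2.1 < 15) &&
    decide (e.1.2.2 < 15)) = true := by decide +kernel

/-- no three points pierce all fifteen sets -/
lemma not_pierced (P : Finset (EuclideanSpace ℝ (Fin 2)))
    (hP : ∀ i : Fin 15, ∃ p ∈ P, p ∈ C i) : 4 ≤ P.card := by
  by_contra hlt
  push Not at hlt
  choose g hg hgC using hP
  obtain ⟨φ, hφ⟩ : ∃ φ : EuclideanSpace ℝ (Fin 2) → ℕ, (∀ p, φ p < 3) ∧
      ∀ p ∈ P, ∀ q ∈ P, φ p = φ q → p = q := by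
    have h3 : P.card ≤ 3 := by omega
    classical
    let e := P.equivFin
    refine ⟨fun p => if h : p ∈ P then (e ⟨p, h⟩ : ℕ) else 0, fun p => ?_, fun p hp q hq h => ?_⟩
    · dsimp only
      split_ifs with h
      · exact lt_of_lt_of_le (e ⟨p, h⟩).2 h3
      · norm_num
    · simp only [hp, hq, dif_pos] at h
      have := e.injective (Fin.ext h)
      exact congrArg Subtype.val this
  obtain ⟨e, he, h1, h2⟩ := exists_mono (fun v => if h : v < 15 then φ (g ⟨v, h⟩) else 0) (by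
    intro v
    split_ifs with h
    · exact hφ.1 _
    · norm_num)
  have hl := List.all_eq_true.1 sep_lt e he
  simp only [Bool.and_eq_true, decide_eq_true_eq] at hl
  obtain ⟨⟨l1, l2⟩, l3⟩ := hl
  simp only [l1, l2, l3, dif_pos] at h1 h2
  have q1 := hφ.2 _ (hg _) _ (hg _) h1
  have q2 := hφ.2 _ (hg _) _ (hg _) h2
  have m1 := hgC ⟨e.1.1, l1⟩
  have m2 := hgC ⟨e.1.2.1, l2⟩
  have m3 := hgC ⟨e.1.2.2, l3⟩
  rw [q1, q2] at m1
  rw [q2] at m2
  exact sep_sound (List.all_eq_true.1 all_sep e he) m1 m2 m3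

/-- three of the four sets contain the point `q` -/
def three (q : (ℤ × ℤ) × List ℕ) (a b c d : ℕ) : Bool :=
  (q.2.elem a && q.2.elem b && q.2.elem c) || (q.2.elem a && q.2.elem b && q.2.elem d) ||
  (q.2.elem a && q.2.elem c && q.2.elem d) || (q.2.elem b && q.2.elem c && q.2.elem d)

lemma all_three : (List.range 15).all (fun d => (List.range d).all (fun c =>
    (List.range c).all (fun b => (List.range b).all (fun a =>
      pts.any (fun q => three q a b c d))))) = true := by decide +kernel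

lemma exists_three {a b c d : ℕ} (hab : a < b) (hbc : b < c) (hcd : c < d) (hd : d < 15) :
    ∃ q ∈ pts, three q a b c d = true := by
  have h := all_three
  simp only [List.all_eq_true, List.mem_range, List.any_eq_true] at h
  exact h d hd c hcd b hbc a hab

/-- among any four of the sets some three have a common point -/
lemma four_three (s : Finset (Fin 15)) (hs : s.card = 4) :
    ∃ t ⊆ s, t.card = 3 ∧ ∃ p, ∀ i ∈ t, p ∈ C i := by
  set e := s.orderEmbOfFin hs with he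
  have hm : ∀ j, e j ∈ s := fun j => Finset.orderEmbOfFin_mem s hs j
  have hlt : ∀ j k : Fin 4, j < k → (e j : ℕ) < e k := fun j k h => e.strictMono h
  obtain ⟨q, hq, h3⟩ := exists_three (hlt 0 1 (by decide)) (hlt 1 2 (by decide))
    (hlt 2 3 (by decide)) (e 3).2
  have key : ∀ j k l : Fin 4, j < k → k < l → (q.2.elem (e j : ℕ) = true) →
      (q.2.elem (e k : ℕ) = true) → (q.2.elem (e l : ℕ) = true) →
      ∃ t ⊆ s, t.card = 3 ∧ ∃ p, ∀ i ∈ t, p ∈ C i := by
    intro j k l hjk hkl h1 h2 h3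
    refine ⟨{e j, e k, e l}, ?_, ?_, pt q.1, ?_⟩
    · intro x hx
      simp only [Finset.mem_insert, Finset.mem_singleton] at hx
      rcases hx with rfl | rfl | rfl
      · exact hm _
      · exact hm _
      · exact hm _
    · rw [Finset.card_eq_three]
      exact ⟨e j, e k, e l, (e.injective.ne hjk.ne), (e.injective.ne (hjk.trans hkl).ne),
        (e.injective.ne hkl.ne), rfl⟩
    · intro i hi
      simp only [Finset.mem_insert, Finset.mem_singleton] at hi
      rcases hi with rfl | rfl | rfl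
      · exact mem_C hq h1
      · exact mem_C hq h2
      · exact mem_C hq h3
  simp only [three, Bool.or_eq_true, Bool.and_eq_true] at h3
  rcases h3 with ((⟨⟨h1, h2⟩, h3⟩ | ⟨⟨h1, h2⟩, h3⟩) | ⟨⟨h1, h2⟩, h3⟩) | ⟨⟨h1, h2⟩, h3⟩
  · exact key 0 1 2 (by decide) (by decide) h1 h2 h3
  · exact key 0 1 3 (by decide) (by decide) h1 h2 h3
  · exact key 0 2 3 (by decide) (by decide) h1 h2 h3
  · exact key 1 2 3 (by decide) (by decide) h1 h2 h3

/-- check of the distinctness certificates -/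
def disOK (e : ℕ × ℕ × ℕ × (ℤ × ℤ × ℤ)) : Bool :=
  match pts[e.2.2.1]? with
  | none => false
  | some q => q.2.elem e.1 && leOn e.2.1 e.2.2.2 &&
      decide (e.2.2.2.2.2 < e.2.2.2.1 * q.1.1 + e.2.2.2.2.1 * q.1.2)

lemma all_dis : dis.all disOK = true := by decide +kernel

lemma dis_cover : (List.range 15).all (fun j => (List.range j).all (fun i =>
    dis.any (fun e => (e.1 == i && e.2.1 == j) || (e.1 == j && e.2.1 == i)))) = true := by
  decide +kernel

lemma dis_sound {e : ℕ × ℕ × ℕ × (ℤ × ℤ × ℤ)} (h : disOK e = true) : C e.1 ≠ C e.2.1 := by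
  unfold disOK at h
  split at h
  · simp at h
  · rename_i q hq
    simp only [Bool.and_eq_true, decide_eq_true_eq] at h
    obtain ⟨⟨h1, h2⟩, h3⟩ := h
    intro heq
    have hmem : pt q.1 ∈ C e.1 := mem_C (List.mem_of_getElem? hq) h1
    rw [heq] at hmem
    have := le_of_mem h2 hmem
    simp only [pt] at this
    simp at this
    have h3' : (e.2.2.2.2.2 : ℝ) < e.2.2.2.1 * q.1.1 + e.2.2.2.2.1 * q.1.2 := by exact_mod_cast h3
    linarith

lemma C_injective : Function.Injective (fun i : Fin 15 => C i) := by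
  have key : ∀ i j : ℕ, i < j → j < 15 → C i ≠ C j := by
    intro i j hij hj
    have h := dis_cover
    simp only [List.all_eq_true, List.mem_range, List.any_eq_true, Bool.or_eq_true,
      Bool.and_eq_true, beq_iff_eq] at h
    obtain ⟨e, he, h1⟩ := h j hj i hij
    have h2 := dis_sound (List.all_eq_true.1 all_dis e he)
    rcases h1 with ⟨a, b⟩ | ⟨a, b⟩
    · rw [a, b] at h2; exact h2
    · rw [a, b] at h2; exact h2.symm
  intro i j h
  rcases lt_trichotomy (i : ℕ) j with hl | hl | hl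
  · exact absurd h (key i j hl j.2)
  · exact Fin.ext hl
  · exact absurd h.symm (key j i hl i.2)

end Pool.Agent.Lib.MP_8fca14_co
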